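import Pool.Agent.X113.WG4

/-!
# The smallest gaps between the ordinates of the zeta zeros: an exact criterion in terms of primes

Let `0 < s ≤ 1` and

`A_s(v) = (1 / (s √(2π))) ∑ Λ(n) n^(-1/2) exp(-((v - log n)/s)² / 2) - exp(v/2 + s²/8)`,

the error term of the prime number theorem around `x = e^v`, with a Gaussian weight of width `s` in `log n`. Let
`C(s, λ, V) = (1/V) ∫_0^V A_s(v)² cos(λ v) dv`, and let `m(γ)` be the order of `ζ` at `1/2 + iγ`; the ordinates are the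
`γ` with `m(γ) ≠ 0`.

* Under the Riemann hypothesis `C(s, λ, V) → ∑_γ m(γ) m(γ + λ) exp(-s² (γ² + (γ + λ)²) / 2)` for `V → ∞`.
* Normalised gaps: for `c0 > 0` (the problem: `c0 > 1/2`) the following are equivalent: (a) the Riemann hypothesis,
  and for every `c < c0` any two distinct ordinates up to `T`, `T` large, differ by at least `2πc / log T`; (b) the Riemann
  hypothesis, and for every `c < c0` there is `η > 0` such that for all small `s` and all `0 < λ ≤ 2πc / log(1/s)` one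
  has `C(s, λ, V) ≤ exp(-s^(-η))` for large `V`; (c) `C(1, 0, V)` is bounded along some sequence `V → ∞`, and for every
  `c < c0` there is `δ < 1/e` with `C(s, λ, V) ≤ δ` for some arbitrarily large `V`, for all these `s` and `λ`.
* The same with `T^(-κ-ε)` and `s^(κ+ε)`, for every `ε > 0`, instead of `2πc / log T` and `2πc / log(1/s)`.

So the small correlations `λ ≤ 2πc / log(1/s)` are either super-exponentially small, or at least `1/e` for
some arbitrarily small `s`; and the threshold for `c` is exactly the lower limit of the normalised gaps between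
distinct ordinates.
-/

set_option autoImplicit false

open Filter Topology MeasureTheory

namespace Pool.Agent.Results.MP_400eac_nt.PrimeCorrelationsAndGaps

/-- the order of the zeta function at `1/2 + iγ`; `γ` is an ordinate if `m γ ≠ 0` -/
noncomputable def m (γ : ℝ) : ℕ := analyticOrderNatAt riemannZeta (⟨1 / 2, γ⟩ : ℂ)

/-- the Riemann hypothesis -/
def RH : Prop := ∀ s : ℂ, 0 < s.re → s.re < 1 → riemannZeta s = 0 → s.re = 1 / 2

/-- `A_s(v) = (1 / (s √(2π))) ∑ Λ(n) n^(-1/2) exp(-((v - log n)/s)² / 2) - exp(v/2 + s²/8)` -/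
noncomputable def A (s v : ℝ) : ℝ :=
  (Real.sqrt (2 * Real.pi) * s)⁻¹ * (∑' n : ℕ,
    ArithmeticFunction.vonMangoldt n * (n : ℝ) ^ (-(1 / 2) : ℝ) * Real.exp (-(((v - Real.log n) / s) ^ 2) / 2)) -
  Real.exp (v / 2 + s ^ 2 / 8)

/-- `C(s, l, V) = (1/V) ∫_0^V A_s(v)² cos(l v) dv` -/
noncomputable def C (s l V : ℝ) : ℝ := (∫ v in (0:ℝ)..V, A s v ^ 2 * Real.cos (l * v)) / V

/-- distinct ordinates in `[-T, T]` are at a distance at least `g T`, for all large `T` -/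
def Spaced (g : ℝ → ℝ) : Prop := ∀ᶠ T : ℝ in atTop, ∀ γ γ' : ℝ, m γ ≠ 0 → m γ' ≠ 0 → |γ| ≤ T → |γ'| ≤ T →
  γ ≠ γ' → g T ≤ |γ - γ'|

lemma MM_one (γ : ℝ) : Pool.Agent.X113.HQ.MM 1 γ = m γ := by
  have h : Pool.Agent.X113.HQ.MM 1 γ =
      ∑ χ : DirichletCharacter ℂ 1, analyticOrderNatAt (DirichletCharacter.LFunction χ) (⟨1 / 2, γ⟩ : ℂ) := rfl
  rw [h, Fintype.sum_subsingleton _ (1 : DirichletCharacter ℂ 1), DirichletCharacter.LFunction_modOne_eq]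
  rfl

lemma RH_iff : RH ↔ Pool.Agent.X113.HQ.GRH 1 := by
  unfold RH Pool.Agent.X113.HQ.GRH
  constructor
  · intro h χ s h0 h1 hz
    rw [DirichletCharacter.LFunction_modOne_eq] at hz
    exact h s h0 h1 hz
  · intro h s h0 h1 hz
    refine h 1 s h0 h1 ?_
    rw [DirichletCharacter.LFunction_modOne_eq]
    exact hz

lemma A_eq (s v : ℝ) : A s v = Pool.Agent.X113.VG.At 1 s v := by
  unfold A Pool.Agent.X113.VG.At
  rw [Nat.totient_one, Nat.cast_one, one_mul]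
  congr 2
  refine tsum_congr fun n => ?_
  rw [if_pos (Subsingleton.elim _ _)]

lemma C_eq (s l V : ℝ) : C s l V = Pool.Agent.X113.VG.CC 1 s l V := by
  unfold C Pool.Agent.X113.VG.CC
  simp only [A_eq]

/-- **the criterion** -/
theorem result :
    -- the correlations
    (RH → ∀ s : ℝ, 0 < s → s ≤ 1 → ∀ l : ℝ,
      Summable (fun γ : ℝ => (m γ : ℝ) * m (γ + l) * Real.exp (-(s ^ 2 * (γ ^ 2 + (γ + l) ^ 2)) / 2)) ∧
      Tendsto (C s l) atTop (𝓝 (∑' γ : ℝ, (m γ : ℝ) * m (γ + l) *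
        Real.exp (-(s ^ 2 * (γ ^ 2 + (γ + l) ^ 2)) / 2)))) ∧
    -- the normalised gaps
    (∀ c0 : ℝ, [
      RH ∧ ∀ c : ℝ, 0 < c → c < c0 → Spaced fun T => 2 * Real.pi * c / Real.log T,
      RH ∧ ∀ c : ℝ, 0 < c → c < c0 → ∃ η : ℝ, 0 < η ∧ ∀ᶠ s : ℝ in 𝓝[>] 0, ∀ l : ℝ, 0 < l →
        l ≤ 2 * Real.pi * c / Real.log (1 / s) → ∀ᶠ V : ℝ in atTop, C s l V ≤ Real.exp (-(s ^ (-η))),
      (∃ B : ℝ, ∃ᶠ V : ℝ in atTop, C 1 0 V ≤ B) ∧ ∀ c : ℝ, 0 < c → c < c0 → ∃ δ : ℝ, δ < Real.exp (-1) ∧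
        ∀ᶠ s : ℝ in 𝓝[>] 0, ∀ l : ℝ, 0 < l → l ≤ 2 * Real.pi * c / Real.log (1 / s) →
          ∃ᶠ V : ℝ in atTop, C s l V ≤ δ].TFAE) ∧
    -- power gaps
    (∀ κ : ℝ, 0 ≤ κ → [
      RH ∧ ∀ ε : ℝ, 0 < ε → Spaced fun T => T ^ (-(κ + ε)),
      RH ∧ ∀ ε : ℝ, 0 < ε → ∃ η : ℝ, 0 < η ∧ ∀ᶠ s : ℝ in 𝓝[>] 0, ∀ l : ℝ, 0 < l → l ≤ s ^ (κ + ε) →
        ∀ᶠ V : ℝ in atTop, C s l V ≤ Real.exp (-(s ^ (-η))),
      (∃ B : ℝ, ∃ᶠ V : ℝ in atTop, C 1 0 V ≤ B) ∧ ∃ δ : ℝ, δ < Real.exp (-1) ∧ ∀ ε : ℝ, 0 < ε →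
        ∀ᶠ s : ℝ in 𝓝[>] 0, ∀ l : ℝ, 0 < l → l ≤ s ^ (κ + ε) → ∃ᶠ V : ℝ in atTop, C s l V ≤ δ].TFAE) := by
  have hC : C = Pool.Agent.X113.VG.CC 1 := by
    funext s l V
    exact C_eq s l V
  have hm : (fun γ : ℝ => m γ) = Pool.Agent.X113.HQ.MM 1 := by
    funext γ
    exact (MM_one γ).symm
  refine ⟨fun hR s h0 h1 l => ?_, fun c0 => ?_, fun κ hκ => ?_⟩
  · have hG := RH_iff.1 hR
    have a1 := Pool.Agent.X113.VG.F_summ (q := 1) hG h0 h1 l
    have a2 := Pool.Agent.X113.VG.cor_lim (q := 1) hG h0 h1 l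
    unfold Pool.Agent.X113.VG.FF at a2
    simp only [MM_one] at a1 a2
    refine ⟨a1, ?_⟩
    rw [hC]
    exact a2
  · have h := Pool.Agent.X113.VG.crit_gap (q := 1) (c0 := c0)
    unfold Pool.Agent.X113.VG.Gap at h
    simp only [MM_one, ← RH_iff] at h
    rw [hC]
    exact h
  · have h := Pool.Agent.X113.VG.crit_sep (q := 1) hκ
    unfold Pool.Agent.X113.VG.Sep at h
    simp only [MM_one, ← RH_iff] at h
    rw [hC]
    exact h

end Pool.Agent.Results.MP_400eac_nt.PrimeCorrelationsAndGaps
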